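import Pool.Agent.Helper29.BL.GoalsC

/-!
# Project BL, packet SPEC
-/

namespace Pool.Agent.Helper46.BL

open WeierstrassCurve Height Height.AdmissibleAbsValues Polynomial
open scoped Polynomial.Bivariate
open Pool.Agent.Helper29.BL

noncomputable section

section sgl

variable {F : Type} [Field F] [DecidableEq F] {W₁ W₂ : Affine F}

lemma sg_sg (s : ℤˣ × ℤˣ) (z : W₁.Point × W₂.Point) : sg s (sg s z) = z := by
  unfold sg
  ext1
  · simp only [smul_smul]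
    rw [← Units.val_mul, Int.units_mul_self]
    simp
  · simp only [smul_smul]
    rw [← Units.val_mul, Int.units_mul_self]
    simp

lemma sg_sub (s : ℤˣ × ℤˣ) (z z' : W₁.Point × W₂.Point) : sg s (z - z') = sg s z - sg s z' := by
  unfold sg
  ext1
  · simp only [Prod.fst_sub, smul_sub]
  · simp only [Prod.snd_sub, smul_sub]

lemma sg_nsmul (s : ℤˣ × ℤˣ) (n : ℕ) (z : W₁.Point × W₂.Point) :
    sg s (n • z) = n • sg s z := by
  unfold sg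
  ext1
  · simp only [Prod.smul_fst]
    rw [smul_comm]
  · simp only [Prod.smul_snd]
    rw [smul_comm]

lemma NT_nsmul {z : W₁.Point × W₂.Point} (h : NT z) {n : ℕ} (hn : 1 ≤ n) : NT (n • z) := by
  constructor
  · intro k hk
    simp only [Prod.smul_fst, smul_smul]
    exact h.1 _ (Nat.mul_pos hk hn)
  · intro k hk
    simp only [Prod.smul_snd, smul_smul]
    exact h.2 _ (Nat.mul_pos hk hn)

end sgl

theorem spec_of : GEN → PEX → EMB → SP1 → SP2 → SPEC := by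
  intro hG hP hE h1 h2 K _ _ _ W₁ W₂ _ _ m Φ hBD hirr hpos
  obtain ⟨Ω, _, _, a, b, hgen⟩ := hG K Φ hirr hpos
  classical
  have := hgen.closed
  obtain ⟨ι₁, i1, i2, i3⟩ := hE K Ω W₁
  obtain ⟨ι₂, j1, j2, j3⟩ := hE K Ω W₂
  obtain ⟨P₁, hP₁, hx₁⟩ := hP Ω (bcW Ω W₁) a
  obtain ⟨P₂, hP₂, hx₂⟩ := hP Ω (bcW Ω W₂) b
  have hA : Aff ((P₁, P₂) : (bcW Ω W₁).Point × (bcW Ω W₂).Point) := ⟨hP₁, hP₂⟩
  have hk : kap ((P₁, P₂) : (bcW Ω W₁).Point × (bcW Ω W₂).Point) = (a, b) := by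
    simp only [kap, hx₁, hx₂]
  have s1 := h1 K W₁ W₂ m Φ hBD hirr hpos Ω a b hgen ι₁ ι₂ i1 i2 j1 j2 (P₁, P₂) hA hk
  have s2 := h2 K W₁ W₂ m Φ hBD hirr hpos Ω a b hgen ι₁ ι₂ i1 i2 j1 j2 i3 j3 (P₁, P₂) hA hk
  generalize hZ : Zu Φ ι₁ ι₂ (P₁, P₂) = Z at s1 s2
  have hZ0 : Z 0 := by
    rw [← hZ]
    show evO Φ (xc (P₁ + ι₁ 0), xc (P₂ + ι₂ 0)) = 0
    rw [map_zero, map_zero, add_zero, add_zero, hx₁, hx₂]
    exact (hgen.ker Φ).mpr dvd_rfl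
  -- the two choices
  let σ : W₁.Point × W₂.Point → ℤˣ × ℤˣ := fun y =>
    if h : ∃ s : ℤˣ × ℤˣ, Z (sg s y) then h.choose else (1, 1)
  have hσ : ∀ y, (∃ s : ℤˣ × ℤˣ, Z (sg s y)) → Z (sg (σ y) y) := by
    intro y h
    simp only [σ, dif_pos h]
    exact h.choose_spec
  let ρ : W₁.Point × W₂.Point → ℤˣ × ℤˣ := fun w =>
    if h : Z w then (s2 w h).choose else (1, 1)
  have hρ : ∀ w, Z w → (∀ w', Z w' → Z (w + sg (ρ w) w')) ∧
      (∀ w', Z w' → Z (sg (ρ w) (w' - w))) := by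
    intro w h
    simp only [ρ, dif_pos h]
    exact (s2 w h).choose_spec
  have key : ∀ w₁ w₂, Z w₁ → Z w₂ → ρ w₁ = ρ w₂ → ∀ n : ℕ, Z (n • (w₁ - w₂)) := by
    intro w₁ w₂ hw₁ hw₂ he n
    induction n with
    | zero => rw [zero_smul]; exact hZ0
    | succ n ih =>
      have q := (hρ w₁ hw₁).1 _ ((hρ w₂ hw₂).2 _ ih)
      rw [he, sg_sg] at q
      rw [succ_nsmul]
      have e : w₁ + (n • (w₁ - w₂) - w₂) = n • (w₁ - w₂) + (w₁ - w₂) := by abel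
      rwa [e] at q
  have hcard : Fintype.card ((ℤˣ × ℤˣ) × (ℤˣ × ℤˣ)) = 16 := by
    simp only [Fintype.card_prod, Fintype.card_units_int]
  let e : (ℤˣ × ℤˣ) × (ℤˣ × ℤˣ) ≃ Fin 16 := Fintype.equivFinOfCardEq hcard
  refine ⟨fun y => e (σ y, ρ (sg (σ y) y)), ?_⟩
  intro y y' hy hy' hyy hd hd' hcl n hn
  have hcl' := e.injective hcl
  rw [Prod.mk.injEq] at hcl'
  obtain ⟨c1, c2⟩ := hcl'
  have z1 : Z (sg (σ y) y) := hσ y ((s1 y hy).mp hd)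
  have z2 : Z (sg (σ y') y') := hσ y' ((s1 y' hy').mp hd')
  have q := key _ _ z1 z2 c2 n
  rw [← c1, ← sg_sub, ← sg_nsmul] at q
  exact (s1 (n • (y - y')) (NT_nsmul hyy hn)).mpr ⟨σ y, q⟩

end

end Pool.Agent.Helper46.BL
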